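import Mathlib

namespace Pool.Agent.H978Z.Weyl

open Finset Complex

/-- the additive character `e(x) = exp(2 pi i x)` -/
noncomputable def e (x : ℝ) : ℂ := Complex.exp (2 * Real.pi * Complex.I * x)

/-- distance to the nearest integer -/
noncomputable def D (x : ℝ) : ℝ := |x - round x|

lemma e_eq (x : ℝ) : e x = Complex.exp (Complex.I * ((2 * Real.pi * x : ℝ) : ℂ)) := by
  unfold e; congr 1; push_cast; ring

lemma e_add (x y : ℝ) : e (x + y) = e x * e y := by
  unfold e; rw [← Complex.exp_add]; congr 1; push_cast; ring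

lemma norm_e (x : ℝ) : ‖e x‖ = 1 := by
  rw [e_eq, Complex.norm_exp_I_mul_ofReal]

lemma e_zero : e 0 = 1 := by simp [e]

lemma e_int (n : ℤ) : e n = 1 := by
  unfold e
  have : (2 * Real.pi * Complex.I * ((n : ℝ) : ℂ)) = n * (2 * Real.pi * Complex.I) := by
    push_cast; ring
  rw [this, Complex.exp_int_mul_two_pi_mul_I]

lemma e_add_int (x : ℝ) (n : ℤ) : e (x + n) = e x := by rw [e_add, e_int, mul_one]

lemma conj_e (x : ℝ) : (starRingEnd ℂ) (e x) = e (-x) := by
  unfold e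
  rw [← Complex.exp_conj]
  congr 1
  simp [Complex.conj_ofReal, map_ofNat]

lemma e_nat_mul (n : ℕ) (x : ℝ) : e (n * x) = e x ^ n := by
  induction n with
  | zero => simp [e_zero]
  | succ n ih => rw [pow_succ, ← ih, ← e_add]; congr 1; push_cast; ring

lemma norm_e_sub_one_le (x : ℝ) : ‖e x - 1‖ ≤ 2 * Real.pi * |x| := by
  rw [e_eq]
  refine (Real.norm_exp_I_mul_ofReal_sub_one_le).trans ?_
  rw [Real.norm_eq_abs, abs_mul, abs_of_pos (by positivity)]

lemma norm_e_sub_e_le (x y : ℝ) : ‖e x - e y‖ ≤ 2 * Real.pi * |x - y| := by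
  have : e x - e y = e y * (e (x - y) - 1) := by
    rw [mul_sub, ← e_add]; simp
  rw [this, norm_mul, norm_e, one_mul]
  exact norm_e_sub_one_le _

lemma D_nonneg (x : ℝ) : 0 ≤ D x := abs_nonneg _

lemma D_le (x : ℝ) (n : ℤ) : D x ≤ |x - n| := round_le x n

lemma norm_e_sub_one_ge (x : ℝ) : 4 * D x ≤ ‖e x - 1‖ := by
  have h1 : e x = e (x - round x) := by
    have := e_add_int (x - round x) (round x)
    rw [← this]; congr 1; ring
  rw [h1, e_eq, Complex.norm_exp_I_mul_ofReal_sub_one]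
  have h2 : |x - round x| ≤ 1 / 2 := abs_sub_round x
  have h3 : |2 * Real.pi * (x - round x) / 2| ≤ Real.pi / 2 := by
    have : 2 * Real.pi * (x - round x) / 2 = Real.pi * (x - round x) := by ring
    rw [this, abs_mul, abs_of_pos Real.pi_pos]
    nlinarith [Real.pi_pos]
  have h4 := Real.mul_abs_le_abs_sin h3
  have h5 : |2 * Real.pi * (x - round x) / 2| = Real.pi * |x - round x| := by
    have : 2 * Real.pi * (x - round x) / 2 = Real.pi * (x - round x) := by ring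
    rw [this, abs_mul, abs_of_pos Real.pi_pos]
  rw [h5] at h4
  have h6 : 2 / Real.pi * (Real.pi * |x - round x|) = 2 * |x - round x| := by
    field_simp
  rw [h6] at h4
  rw [Real.norm_eq_abs, abs_mul]
  unfold D
  rw [abs_two]
  linarith

lemma geom_bound (γ : ℝ) (K : ℕ) (hD : 0 < D γ) :
    ‖∑ n ∈ range K, e (n * γ)‖ ≤ 1 / (2 * D γ) := by
  have h4 := norm_e_sub_one_ge γ
  have hne : e γ ≠ 1 := by
    intro h; rw [h] at h4; simp at h4; linarith
  simp_rw [e_nat_mul]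
  rw [geom_sum_eq hne, norm_div]
  have hnum : ‖e γ ^ K - 1‖ ≤ 2 := by
    calc ‖e γ ^ K - 1‖ ≤ ‖e γ ^ K‖ + ‖(1:ℂ)‖ := norm_sub_le _ _
      _ = 2 := by rw [norm_pow, norm_e]; norm_num
  rw [div_le_div_iff₀ (by linarith) (by linarith)]
  nlinarith

lemma geom_triv (γ : ℝ) (K : ℕ) : ‖∑ n ∈ range K, e (n * γ)‖ ≤ K := by
  calc ‖∑ n ∈ range K, e (n * γ)‖ ≤ ∑ n ∈ range K, ‖e (n * γ)‖ := norm_sum_le _ _
    _ = K := by simp [norm_e]

lemma normSq_sum (u : ℕ → ℂ) (N : ℕ) :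
    ‖∑ n ∈ range N, u n‖ ^ 2 = ∑ n ∈ range N, ‖u n‖ ^ 2 +
      2 * (∑ h ∈ range N, ∑ n ∈ range (N - h - 1), u (n + h + 1) * (starRingEnd ℂ) (u n)).re := by
  induction N with
  | zero => simp
  | succ N ih =>
    rw [sum_range_succ, sum_range_succ]
    have h1 : ∑ h ∈ range (N + 1), ∑ n ∈ range (N + 1 - h - 1), u (n + h + 1) * (starRingEnd ℂ) (u n)
        = ∑ h ∈ range N, ∑ n ∈ range (N - h - 1), u (n + h + 1) * (starRingEnd ℂ) (u n)
          + u N * (starRingEnd ℂ) (∑ n ∈ range N, u n) := by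
      rw [sum_range_succ]
      have : N + 1 - N - 1 = 0 := by omega
      rw [this, sum_range_zero, add_zero, map_sum, mul_sum,
        ← Finset.sum_range_reflect (fun n => u N * (starRingEnd ℂ) (u n)) N, ← sum_add_distrib]
      apply sum_congr rfl
      intro h hh
      have hh' := mem_range.1 hh
      have e1 : N + 1 - h - 1 = (N - h - 1) + 1 := by omega
      rw [e1, sum_range_succ]
      have e2 : N - h - 1 + h + 1 = N := by omega
      have e3 : N - 1 - h = N - h - 1 := by omega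
      rw [e2, e3]
    rw [h1, Complex.add_re, mul_add, ← Complex.normSq_eq_norm_sq, Complex.normSq_add,
      Complex.normSq_eq_norm_sq, Complex.normSq_eq_norm_sq, ih]
    have : ((∑ n ∈ range N, u n) * (starRingEnd ℂ) (u N)).re
        = (u N * (starRingEnd ℂ) (∑ n ∈ range N, u n)).re := by
      simp [Complex.mul_re]; ring
    rw [this]; ring

/-- the quadratic Weyl sum -/
noncomputable def S2 (x θ : ℝ) (N : ℕ) : ℂ :=
  ∑ n ∈ range N, e (x * ((n:ℝ) + 1) + θ * ((n:ℝ) + 1) ^ 2)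

lemma weyl_diff (x θ : ℝ) (N : ℕ) :
    ‖S2 x θ N‖ ^ 2 ≤ N + 2 * ∑ h ∈ range N,
      ‖∑ n ∈ range (N - h - 1), e (n * (2 * ((h:ℝ) + 1) * θ))‖ := by
  unfold S2
  rw [normSq_sum]
  simp only [norm_e, one_pow, sum_const, card_range, nsmul_eq_mul, mul_one]
  gcongr
  refine (Complex.re_le_norm _).trans ?_
  refine (norm_sum_le _ _).trans ?_
  apply sum_le_sum
  intro h _
  have : ∑ n ∈ range (N - h - 1), e (x * (((n + h + 1 : ℕ):ℝ) + 1) + θ * (((n + h + 1 : ℕ):ℝ) + 1) ^ 2)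
      * (starRingEnd ℂ) (e (x * ((n:ℝ) + 1) + θ * ((n:ℝ) + 1) ^ 2))
      = e (x * ((h:ℝ) + 1) + θ * (((h:ℝ) + 1) ^ 2 + 2 * ((h:ℝ) + 1))) *
        ∑ n ∈ range (N - h - 1), e (n * (2 * ((h:ℝ) + 1) * θ)) := by
    rw [mul_sum]
    apply sum_congr rfl
    intro n _
    rw [conj_e, ← e_add, ← e_add]
    congr 1
    push_cast
    ring
  rw [this, norm_mul, norm_e, one_mul]

end Pool.Agent.H978Z.Weyl
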