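import Mathlib

namespace Pool.Agent.H978Z.Weyl

open Finset

/-- the real number with ternary digits `ε j` placed at the positions `F j` -/
noncomputable def val (F : ℕ → ℕ) (ε : ℕ → Fin 2) : ℝ := ∑' j, ((ε j : ℕ) : ℝ) / 3 ^ (F j)

lemma dig_le (ε : ℕ → Fin 2) (j : ℕ) : ((ε j : ℕ) : ℝ) ≤ 1 := by
  have := (ε j).2
  exact_mod_cast (by omega : (ε j : ℕ) ≤ 1)

lemma term_le {F : ℕ → ℕ} (hF : StrictMono F) (ε : ℕ → Fin 2) (j : ℕ) :
    ((ε j : ℕ) : ℝ) / 3 ^ (F j) ≤ (1 / 3 ^ (F 0)) * (1 / 3) ^ j := by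
  have h1 : j + F 0 ≤ F j := by simpa using hF.add_le_nat j 0
  have h2 : (3:ℝ) ^ (j + F 0) ≤ 3 ^ (F j) := pow_le_pow_right₀ (by norm_num) h1
  calc ((ε j : ℕ) : ℝ) / 3 ^ (F j) ≤ 1 / 3 ^ (j + F 0) := by
        gcongr; exact dig_le ε j
    _ = _ := by rw [pow_add, one_div_pow]; field_simp

lemma summable_val {F : ℕ → ℕ} (hF : StrictMono F) (ε : ℕ → Fin 2) :
    Summable (fun j => ((ε j : ℕ) : ℝ) / 3 ^ (F j)) := by
  refine Summable.of_nonneg_of_le (fun _ => by positivity) (term_le hF ε) ?_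
  exact Summable.mul_left _ (summable_geometric_of_lt_one (by norm_num) (by norm_num))

lemma val_nonneg (F : ℕ → ℕ) (ε : ℕ → Fin 2) : 0 ≤ val F ε :=
  tsum_nonneg (fun _ => by positivity)

lemma val_le {F : ℕ → ℕ} (hF : StrictMono F) (ε : ℕ → Fin 2) : val F ε ≤ (3 / 2) / 3 ^ (F 0) := by
  have hs : Summable (fun j : ℕ => (1 / (3:ℝ) ^ (F 0)) * (1 / 3) ^ j) :=
    Summable.mul_left _ (summable_geometric_of_lt_one (by norm_num) (by norm_num))
  calc val F ε ≤ ∑' j : ℕ, (1 / (3:ℝ) ^ (F 0)) * (1 / 3) ^ j :=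
        (summable_val hF ε).tsum_le_tsum (term_le hF ε) hs
    _ = _ := by
        rw [tsum_mul_left, tsum_geometric_of_lt_one (by norm_num) (by norm_num)]
        field_simp; norm_num

lemma shift_mono {F : ℕ → ℕ} (hF : StrictMono F) (J : ℕ) : StrictMono (fun j => F (j + J)) :=
  fun _ _ h => hF (by omega)

lemma val_split {F : ℕ → ℕ} (hF : StrictMono F) (ε : ℕ → Fin 2) (J : ℕ) :
    val F ε = ∑ j ∈ range J, ((ε j : ℕ) : ℝ) / 3 ^ (F j)
      + val (fun j => F (j + J)) (fun j => ε (j + J)) := by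
  unfold val
  rw [← (summable_val hF ε).sum_add_tsum_nat_add J]

lemma head_eq (F : ℕ → ℕ) (ε : ℕ → Fin 2) (J n : ℕ) (h : ∀ j < J, F j ≤ n) :
    ∑ j ∈ range J, ((ε j : ℕ) : ℝ) / 3 ^ (F j)
      = ((∑ j ∈ range J, (ε j : ℕ) * 3 ^ (n - F j) : ℕ) : ℝ) / ((3 ^ n : ℕ) : ℝ) := by
  push_cast
  rw [sum_div]
  apply sum_congr rfl
  intro j hj
  have := h j (mem_range.1 hj)
  have e : (3:ℝ) ^ n = 3 ^ (n - F j) * 3 ^ (F j) := by rw [← pow_add]; congr 1; omega
  rw [e]; field_simp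

lemma val_sep {F : ℕ → ℕ} (hF : StrictMono F) (ε ε' : ℕ → Fin 2) (J : ℕ)
    (h1 : ∀ j < J, ε j = ε' j) (h2 : ε J ≠ ε' J) :
    (1 / 2) / 3 ^ (F J) ≤ |val F ε - val F ε'| := by
  have key : ∀ a b : ℕ → Fin 2, (∀ j < J, a j = b j) → (a J : ℕ) = 1 → (b J : ℕ) = 0 →
      (1 / 2) / 3 ^ (F J) ≤ val F a - val F b := by
    intro a b hab ha hb
    rw [val_split hF a (J + 1), val_split hF b (J + 1), sum_range_succ, sum_range_succ, ha, hb]
    have : ∑ j ∈ range J, ((a j : ℕ) : ℝ) / 3 ^ (F j) = ∑ j ∈ range J, ((b j : ℕ) : ℝ) / 3 ^ (F j) :=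
      sum_congr rfl (fun j hj => by rw [hab j (mem_range.1 hj)])
    rw [this]
    have p1 := val_nonneg (fun j => F (j + (J + 1))) (fun j => a (j + (J + 1)))
    have p2 := val_le (shift_mono hF (J + 1)) (fun j => b (j + (J + 1)))
    have p3 : F J + 1 ≤ F (0 + (J + 1)) := by
      have := hF (show J < 0 + (J + 1) by omega); omega
    have p4 : (3 / 2 : ℝ) / 3 ^ (F (0 + (J + 1))) ≤ (3 / 2) / 3 ^ (F J + 1) := by
      gcongr; norm_num
    have p5 : (3 / 2 : ℝ) / 3 ^ (F J + 1) = (1 / 2) / 3 ^ (F J) := by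
      rw [pow_succ]; field_simp
    have p6 : (1 / 2 : ℝ) / 3 ^ (F J) + (1 / 2) / 3 ^ (F J) = 1 / 3 ^ (F J) := by
      field_simp; norm_num
    simp only [Nat.cast_one, Nat.cast_zero, zero_div] at *
    linarith
  have a1 := (ε J).2
  have a2 := (ε' J).2
  have a3 : (ε J : ℕ) ≠ (ε' J : ℕ) := fun h => h2 (Fin.ext h)
  rcases Nat.lt_or_ge (ε J : ℕ) 1 with h | h
  · have := key ε' ε (fun j hj => (h1 j hj).symm) (by omega) (by omega)
    rw [abs_sub_comm]; exact this.trans (le_abs_self _)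
  · exact (key ε ε' h1 (by omega) (by omega)).trans (le_abs_self _)

lemma val_inj {F : ℕ → ℕ} (hF : StrictMono F) : Function.Injective (val F) := by
  intro ε ε' h
  by_contra hne
  have hex : ∃ j, ε j ≠ ε' j := by
    by_contra hc; push Not at hc; exact hne (funext hc)
  have := val_sep hF ε ε' (Nat.find hex) (fun j hj => by simpa using Nat.find_min hex hj)
    (Nat.find_spec hex)
  rw [h, sub_self, abs_zero] at this
  have : (0:ℝ) < (1 / 2) / 3 ^ (F (Nat.find hex)) := by positivity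
  linarith

lemma dimH_val_pos {F : ℕ → ℕ} (hF : StrictMono F) (C : ℕ) (hC : 1 ≤ C)
    (hFC : ∀ j, F j ≤ C * (j + 1)) : 0 < dimH (Set.range (val F)) := by
  set f : ℝ → ℝ := fun x => Real.ofDigits (Function.invFun (val F) x) with hf
  have hfv : ∀ ε, f (val F ε) = Real.ofDigits ε := by
    intro ε; simp only [hf]; rw [Function.leftInverse_invFun (val_inj hF) ε]
  have hC' : (0:ℝ) < C := by exact_mod_cast hC
  set r : NNReal := ⟨1 / (2 * C), by positivity⟩ with hr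
  have hr0 : 0 < r := by
    rw [← NNReal.coe_pos]; show (0:ℝ) < 1 / (2 * C); positivity
  have hH : HolderOnWith 4 r f (Set.range (val F)) := by
    rintro x ⟨ε, rfl⟩ y ⟨ε', rfl⟩
    rw [hfv, hfv, edist_dist, edist_dist, Real.dist_eq, Real.dist_eq]
    have hrr : (r : ℝ) = 1 / (2 * C) := rfl
    rw [ENNReal.ofReal_rpow_of_nonneg (abs_nonneg _) (by rw [hrr]; positivity)]
    have h4 : ((4 : NNReal) : ENNReal) = ENNReal.ofReal 4 := by simp
    rw [h4, ← ENNReal.ofReal_mul (by norm_num)]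
    apply ENNReal.ofReal_le_ofReal
    by_cases hne : ε = ε'
    · rw [hne]; simp only [sub_self, abs_zero]; positivity
    have hex : ∃ j, ε j ≠ ε' j := by
      by_contra hc; push Not at hc; exact hne (funext hc)
    set J := Nat.find hex
    have hJ : ∀ j < J, ε j = ε' j := fun j hj => by simpa using Nat.find_min hex hj
    have s1 := val_sep hF ε ε' J hJ (Nat.find_spec hex)
    have s2 := Real.abs_ofDigits_sub_ofDigits_le hJ
    have s3 : (((2:ℝ) ^ (J + 2))⁻¹) ^ (2 * C) ≤ (1 / 2) / 3 ^ (F J) := by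
      rw [inv_pow, ← pow_mul, div_div, one_div]
      apply inv_anti₀ (by positivity)
      have t1 : (3:ℝ) ^ (F J) ≤ 4 ^ (C * (J + 1)) :=
        (pow_le_pow_left₀ (by norm_num) (by norm_num) _).trans
          (pow_le_pow_right₀ (by norm_num) (hFC J))
      have t2 : (2:ℝ) ^ ((J + 2) * (2 * C)) = 4 ^ C * 4 ^ (C * (J + 1)) := by
        rw [← pow_add, show (4:ℝ) = 2 ^ 2 by norm_num, ← pow_mul]; congr 1; ring
      have t3 : (4:ℝ) ^ 1 ≤ 4 ^ C := pow_le_pow_right₀ (by norm_num) hC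
      rw [t2]
      have : (0:ℝ) < 3 ^ (F J) := by positivity
      nlinarith
    have s4 : ((2:ℝ) ^ (J + 2))⁻¹ ≤ |val F ε - val F ε'| ^ (r : ℝ) := by
      have : ((2:ℝ) ^ (J + 2))⁻¹ = ((((2:ℝ) ^ (J + 2))⁻¹) ^ (2 * C)) ^ (r : ℝ) := by
        rw [← Real.rpow_natCast _ (2 * C), ← Real.rpow_mul (by positivity), hrr]
        push_cast
        rw [mul_one_div_cancel (by positivity), Real.rpow_one]
      rw [this]
      exact Real.rpow_le_rpow (by positivity) (s3.trans s1) (by rw [hrr]; positivity)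
    have s5 : (((2:ℕ):ℝ) ^ J)⁻¹ = 4 * ((2:ℝ) ^ (J + 2))⁻¹ := by
      push_cast; rw [pow_add]; field_simp; norm_num
    linarith
  have hle := hH.dimH_image_le hr0
  have hsup : Set.Icc (0:ℝ) 1 ⊆ f '' (Set.range (val F)) := by
    intro y hy
    obtain ⟨ε, -, rfl⟩ := Real.ofDigits_SurjOn (b := 2) (by norm_num) hy
    exact ⟨val F ε, ⟨ε, rfl⟩, hfv ε⟩
  have h1 : dimH (Set.Icc (0:ℝ) 1) = 1 := by
    rw [Real.dimH_of_nonempty_interior (by simp)]; simp
  have h2 := (dimH_mono hsup).trans hle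
  rw [h1] at h2
  by_contra h0
  have : dimH (Set.range (val F)) = 0 := by simpa using h0
  rw [this] at h2
  simp at h2

end Pool.Agent.H978Z.Weyl
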