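import Pool.Agent.H978Z.Weyl.Basic

namespace Pool.Agent.H978Z.Weyl

open Finset

lemma sum_range_zmod (q : ℕ) [NeZero q] (F : ZMod q → ℂ) :
    ∑ r ∈ range q, F ((r : ZMod q) + 1) = ∑ z : ZMod q, F z := by
  rw [← Equiv.sum_comp (Equiv.addRight (1 : ZMod q)) F]
  apply Finset.sum_nbij' (fun r : ℕ => (r : ZMod q)) (fun z : ZMod q => z.val)
  · intro r _; exact mem_univ _
  · intro z _; exact mem_range.2 (ZMod.val_lt z)
  · intro r hr; exact ZMod.val_natCast_of_lt (mem_range.1 hr)
  · intro z _; exact ZMod.natCast_zmod_val z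
  · intro r _; rfl

lemma sum_range_blocks (q M : ℕ) (f : ℕ → ℂ) :
    ∑ n ∈ range (q * M), f n = ∑ m ∈ range M, ∑ r ∈ range q, f (q * m + r) := by
  induction M with
  | zero => simp
  | succ M ih => rw [Nat.mul_succ, sum_range_add, ih, sum_range_succ]

lemma e_div (q : ℕ) [NeZero q] (j : ℤ) : e (j / q) = ZMod.stdAddChar (j : ZMod q) := by
  rw [ZMod.stdAddChar_coe]; unfold e; congr 1; push_cast; ring

/-- the complete Gauss sum -/
noncomputable def G (a b q : ℕ) : ℂ :=
  ∑ r ∈ range q, e ((b * ((r:ℝ) + 1) + a * ((r:ℝ) + 1) ^ 2) / q)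

lemma G_normSq (a b q : ℕ) (hq : 0 < q) (hcop : Nat.Coprime (2 * a) q) : ‖G a b q‖ ^ 2 = q := by
  have : NeZero q := ⟨hq.ne'⟩
  set ψ : AddChar (ZMod q) ℂ := ZMod.stdAddChar with hψ
  have hG : G a b q = ∑ z : ZMod q, ψ (b * z + a * z ^ 2) := by
    rw [← sum_range_zmod q (fun z => ψ (b * z + a * z ^ 2))]
    unfold G
    apply sum_congr rfl
    intro r _
    have := e_div q ((b * (r + 1) + a * (r + 1) ^ 2 : ℕ) : ℤ)
    push_cast at this
    exact this
  have hconj : ∀ z : ZMod q, (starRingEnd ℂ) (ψ z) = ψ (-z) := by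
    intro z
    obtain ⟨j, rfl⟩ := ZMod.intCast_surjective z
    rw [← e_div, conj_e, ← Int.cast_neg, ← e_div]
    congr 1; push_cast; ring
  have hprim : ψ.IsPrimitive := ZMod.isPrimitive_stdAddChar q
  have hunit : IsUnit ((2 * a : ℕ) : ZMod q) := (ZMod.isUnit_iff_coprime _ _).2 hcop
  have key : G a b q * (starRingEnd ℂ) (G a b q) = q := by
    rw [hG, map_sum, sum_mul_sum, sum_comm]
    have : ∀ s : ZMod q, ∑ r : ZMod q, ψ (b * r + a * r ^ 2) * (starRingEnd ℂ) (ψ (b * s + a * s ^ 2))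
        = ∑ h : ZMod q, ψ (b * h + a * h ^ 2) * ψ (s * (((2 * a : ℕ) : ZMod q) * h)) := by
      intro s
      rw [← Equiv.sum_comp (Equiv.addRight s)]
      apply sum_congr rfl
      intro h _
      rw [hconj, ← AddChar.map_add_eq_mul, ← AddChar.map_add_eq_mul]
      congr 1
      simp only [Equiv.coe_addRight]
      push_cast
      ring
    simp_rw [this]
    rw [sum_comm]
    simp_rw [← mul_sum, AddChar.sum_mulShift _ hprim]
    rw [sum_eq_single (0 : ZMod q)]
    · simp
    · intro h _ hh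
      have : ((2 * a : ℕ) : ZMod q) * h ≠ 0 := by
        intro h0; exact hh (hunit.mul_right_eq_zero.1 h0)
      rw [if_neg this]; simp
    · simp
  rw [Complex.mul_conj, Complex.normSq_eq_norm_sq] at key
  exact_mod_cast key

lemma lower (a b q M : ℕ) (γ β : ℝ) (hq : 0 < q) (hcop : Nat.Coprime (2 * a) q)
    (hγ : 0 ≤ γ) (hβ : 0 ≤ β) (h1 : γ * (q * M) ≤ 1 / 18) (h2 : β * (q * M) ^ 2 ≤ 1 / 54) :
    Real.sqrt q * M / 2 - q ≤ ‖S2 (b / q + γ) (a / q + β) (q * M)‖ := by
  have hq' : (0:ℝ) < q := by exact_mod_cast hq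
  have hpi := Real.pi_lt_d2
  have hpi0 := Real.pi_pos
  set δ : ℝ → ℝ := fun t => γ * t + β * t ^ 2 with hδ
  set c : ℕ → ℂ := fun r => e ((b * ((r:ℝ) + 1) + a * ((r:ℝ) + 1) ^ 2) / q) with hc
  have hS : S2 (b / q + γ) (a / q + β) (q * M)
      = ∑ m ∈ range M, ∑ r ∈ range q, c r * e (δ (q * m + r + 1)) := by
    unfold S2
    rw [sum_range_blocks]
    apply sum_congr rfl; intro m _
    apply sum_congr rfl; intro r _
    simp only [hc, hδ]
    rw [← e_add]
    conv_rhs => rw [← e_add_int _ ((b * m + a * (q * m ^ 2 + 2 * m * (r + 1)) : ℕ) : ℤ)]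
    congr 1
    push_cast
    field_simp
    ring
  have hG : ‖G a b q‖ = Real.sqrt q := by
    rw [← G_normSq a b q hq hcop, Real.sqrt_sq (norm_nonneg _)]
  have hdec : ∑ m ∈ range M, ∑ r ∈ range q, c r * e (δ (q * m + r + 1))
      = G a b q * M + G a b q * ∑ m ∈ range M, (e (δ (q * m)) - 1)
        + ∑ m ∈ range M, ∑ r ∈ range q, c r * (e (δ (q * m + r + 1)) - e (δ (q * m))) := by
    have : G a b q * M = ∑ m ∈ range M, G a b q := by simp [mul_comm]
    rw [this, mul_sum, ← sum_add_distrib, ← sum_add_distrib]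
    apply sum_congr rfl
    intro m _
    have : G a b q = ∑ r ∈ range q, c r := rfl
    rw [this, sum_mul, ← sum_add_distrib, ← sum_add_distrib]
    apply sum_congr rfl
    intro r _
    ring
  have hb1 : ‖G a b q * ∑ m ∈ range M, (e (δ (q * m)) - 1)‖ ≤ Real.sqrt q * M / 2 := by
    rw [norm_mul, hG, mul_div_assoc]
    gcongr
    calc ‖∑ m ∈ range M, (e (δ (q * m)) - 1)‖ ≤ ∑ m ∈ range M, ‖e (δ (q * m)) - 1‖ := norm_sum_le _ _
      _ ≤ ∑ m ∈ range M, (1 / 2 : ℝ) := by
          apply sum_le_sum; intro m hm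
          have hm' : (m:ℝ) ≤ M := by exact_mod_cast (mem_range.1 hm).le
          refine (norm_e_sub_one_le _).trans ?_
          have p0 : 0 ≤ δ (q * m) := by simp only [hδ]; positivity
          have p1 : δ (q * m) ≤ 1 / 18 + 1 / 54 := by
            simp only [hδ]
            have : γ * (q * m) ≤ γ * (q * M) := by gcongr
            have : β * (q * m) ^ 2 ≤ β * (q * M) ^ 2 := by gcongr
            linarith
          rw [abs_of_nonneg p0]
          nlinarith
      _ = M / 2 := by simp; ring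
  have hb2 : ‖∑ m ∈ range M, ∑ r ∈ range q, c r * (e (δ (q * m + r + 1)) - e (δ (q * m)))‖ ≤ q := by
    calc _ ≤ ∑ m ∈ range M, ‖∑ r ∈ range q, c r * (e (δ (q * m + r + 1)) - e (δ (q * m)))‖ :=
          norm_sum_le _ _
      _ ≤ ∑ m ∈ range M, ∑ r ∈ range q, 2 * Real.pi * (γ * q + 2 * β * q * (q * M)) := by
          apply sum_le_sum; intro m hm
          refine (norm_sum_le _ _).trans ?_
          apply sum_le_sum; intro r hr
          have hm' : (m:ℝ) + 1 ≤ M := by exact_mod_cast (mem_range.1 hm)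
          have hr' : (r:ℝ) + 1 ≤ q := by exact_mod_cast (mem_range.1 hr)
          rw [norm_mul]
          simp only [hc]
          rw [norm_e, one_mul]
          refine (norm_e_sub_e_le _ _).trans ?_
          gcongr
          have e1 : δ (q * m + r + 1) - δ (q * m)
              = γ * ((r:ℝ) + 1) + β * ((r:ℝ) + 1) * (2 * (q * m) + (r + 1)) := by
            simp only [hδ]; ring
          rw [e1, abs_of_nonneg (by positivity)]
          have : 2 * ((q:ℝ) * m) + (r + 1) ≤ 2 * (q * M) := by nlinarith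
          have : β * ((r:ℝ) + 1) * (2 * (q * m) + (r + 1)) ≤ β * q * (2 * (q * M)) := by gcongr
          have : γ * ((r:ℝ) + 1) ≤ γ * q := by gcongr
          linarith
      _ = q * (2 * Real.pi * (γ * (q * M) + 2 * (β * (q * M) ^ 2))) := by simp; ring
      _ ≤ q * 1 := by
          gcongr
          have : 0 ≤ γ * (q * M) + 2 * (β * (q * M) ^ 2) := by positivity
          nlinarith
      _ = q := mul_one _
  rw [hS, hdec]
  have hb0 : ‖G a b q * M‖ = Real.sqrt q * M := by rw [norm_mul, hG]; simp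
  have t1 := norm_add_le (G a b q * M + G a b q * ∑ m ∈ range M, (e (δ (q * m)) - 1)
        + ∑ m ∈ range M, ∑ r ∈ range q, c r * (e (δ (q * m + r + 1)) - e (δ (q * m))))
        (-(G a b q * ∑ m ∈ range M, (e (δ (q * m)) - 1)) -
         ∑ m ∈ range M, ∑ r ∈ range q, c r * (e (δ (q * m + r + 1)) - e (δ (q * m))))
  have t2 := norm_sub_le (-(G a b q * ∑ m ∈ range M, (e (δ (q * m)) - 1)))
         (∑ m ∈ range M, ∑ r ∈ range q, c r * (e (δ (q * m + r + 1)) - e (δ (q * m))))
  rw [norm_neg] at t2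
  have t3 : G a b q * M + G a b q * ∑ m ∈ range M, (e (δ (q * m)) - 1)
        + ∑ m ∈ range M, ∑ r ∈ range q, c r * (e (δ (q * m + r + 1)) - e (δ (q * m)))
        + (-(G a b q * ∑ m ∈ range M, (e (δ (q * m)) - 1)) -
         ∑ m ∈ range M, ∑ r ∈ range q, c r * (e (δ (q * m + r + 1)) - e (δ (q * m))))
         = G a b q * M := by ring
  rw [t3, hb0] at t1
  linarith

end Pool.Agent.H978Z.Weyl
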