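import Pool.Agent.H978Z.Weyl.Upper
import Pool.Agent.H978Z.Weyl.Lower
import Pool.Agent.H978Z.Weyl.Digits

namespace Pool.Agent.H978Z.Weyl

open Finset Filter Asymptotics

/-- the lacunary sequence of exponents -/
noncomputable def nn (μ : ℝ) : ℕ → ℕ
  | 0 => 1
  | k + 1 => ⌈μ * nn μ k⌉₊

section
variable {μ : ℝ}

lemma nn_lo (μ : ℝ) (k : ℕ) : μ * nn μ k ≤ nn μ (k + 1) := Nat.le_ceil _

lemma nn_hi (hμ : 4 ≤ μ) (k : ℕ) : (nn μ (k + 1) : ℝ) < μ * nn μ k + 1 :=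
  Nat.ceil_lt_add_one (by positivity)

lemma nn_four (hμ : 4 ≤ μ) (k : ℕ) : 4 * nn μ k ≤ nn μ (k + 1) := by
  have h := nn_lo μ k
  have : (4:ℝ) * nn μ k ≤ nn μ (k + 1) := le_trans (by gcongr) h
  exact_mod_cast this

lemma nn_pos (hμ : 4 ≤ μ) (k : ℕ) : 1 ≤ nn μ k := by
  induction k with
  | zero => simp [nn]
  | succ k ih => have := nn_four hμ k; omega

lemma nn_mono (hμ : 4 ≤ μ) : StrictMono (nn μ) := by
  apply strictMono_nat_of_lt_succ
  intro k; have := nn_four hμ k; have := nn_pos hμ k; omega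

lemma nn_ge (hμ : 4 ≤ μ) (k : ℕ) : k ≤ nn μ k := (nn_mono hμ).id_le k

lemma nn_le_mul (hμ : 4 ≤ μ) (k : ℕ) : nn μ (k + 1) ≤ (⌈μ⌉₊ + 1) * nn μ k := by
  have h1 := nn_hi hμ k
  have h2 : (1:ℝ) ≤ nn μ k := by exact_mod_cast nn_pos hμ k
  have h3 := Nat.le_ceil μ
  have : (nn μ (k + 1) : ℝ) ≤ (⌈μ⌉₊ + 1) * nn μ k := by nlinarith
  exact_mod_cast this

/-- the quadratic coefficient -/
noncomputable def th (μ : ℝ) : ℝ := val (nn μ) (fun _ => 1)

lemma th_mem (hμ : 4 ≤ μ) : th μ ∈ Set.Ico (0:ℝ) 1 := by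
  refine ⟨val_nonneg _ _, (val_le (nn_mono hμ) _).trans_lt ?_⟩
  simp [nn]; norm_num

lemma th_approx (hμ : 4 ≤ μ) (k : ℕ) : ∃ (a : ℕ) (β : ℝ), Nat.Coprime (2 * a) (3 ^ nn μ k) ∧
    th μ = a / ((3 ^ nn μ k : ℕ) : ℝ) + β ∧ 1 / 3 ^ nn μ (k + 1) ≤ β ∧
      β ≤ (3 / 2) / 3 ^ nn μ (k + 1) := by
  have hm := nn_mono hμ
  refine ⟨∑ j ∈ range (k + 1), ((1 : Fin 2) : ℕ) * 3 ^ (nn μ k - nn μ j),
    val (fun j => nn μ (j + (k + 1))) (fun _ => 1), ?_, ?_, ?_, ?_⟩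
  · apply Nat.Coprime.pow_right
    rw [Nat.coprime_comm, Nat.Prime.coprime_iff_not_dvd Nat.prime_three, sum_range_succ]
    have : 3 ∣ ∑ j ∈ range k, ((1 : Fin 2) : ℕ) * 3 ^ (nn μ k - nn μ j) := by
      apply dvd_sum; intro j hj
      have := hm (mem_range.1 hj)
      exact Dvd.dvd.mul_left (dvd_pow_self 3 (by omega)) _
    simp only [Nat.sub_self, pow_zero, Fin.val_one, mul_one] at *
    omega
  · unfold th
    rw [val_split hm _ (k + 1), head_eq (nn μ) (fun _ => 1) (k + 1) (nn μ k)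
      (fun j hj => hm.monotone (by omega))]
  · rw [val_split (shift_mono hm (k + 1)) _ 1]
    have := val_nonneg (fun j => nn μ (j + 1 + (k + 1))) (fun _ => 1)
    simp only [sum_range_one, zero_add, Fin.val_one, Nat.cast_one]
    linarith
  · simpa using val_le (shift_mono hm (k + 1)) (fun _ => 1)

lemma min_le_geom (A B t : ℝ) (hA : 0 < A) (hB : 0 < B) (h0 : 0 ≤ t) (h1 : t ≤ 1) :
    min A B ≤ A ^ t * B ^ (1 - t) := by
  have hm : 0 < min A B := lt_min hA hB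
  calc min A B = (min A B) ^ t * (min A B) ^ (1 - t) := by
        rw [← Real.rpow_add hm]; simp
    _ ≤ A ^ t * B ^ (1 - t) := by
        gcongr
        · exact min_le_left _ _
        · exact min_le_right _ _

lemma upper_main {α : ℝ} (h1 : 3 / 4 ≤ α) (h2 : α < 1) (hμα : μ * (1 - α) = 1) (hμ : 4 ≤ μ)
    (x : ℝ) (N : ℕ) (hN : 3 ^ (nn μ 1 - nn μ 0 - 2) < N) :
    ‖S2 x (th μ) N‖ ^ 2 ≤ 2959 * (1 + Real.log N) * (N:ℝ) ^ (2 * α) := by
  have hex : ∃ k, N ≤ 3 ^ (nn μ (k + 1) - nn μ k - 2) := by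
    refine ⟨N, ?_⟩
    have := nn_four hμ N; have := nn_pos hμ N; have := nn_ge hμ N
    have h3 : N < 3 ^ N := Nat.lt_pow_self (by norm_num)
    exact h3.le.trans (Nat.pow_le_pow_right (by norm_num) (by omega))
  have hk0 : Nat.find hex ≠ 0 := by
    intro h0
    have := Nat.find_spec hex
    rw [h0] at this
    simp only [zero_add] at this
    omega
  obtain ⟨k, hk⟩ := Nat.exists_eq_succ_of_ne_zero hk0
  have hup : N ≤ 3 ^ (nn μ (k + 2) - nn μ (k + 1) - 2) := by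
    have := Nat.find_spec hex; rw [hk] at this; exact this
  have hlo : 3 ^ (nn μ (k + 1) - nn μ k - 2) < N := by
    have := Nat.find_min hex (show k < Nat.find hex by omega); omega
  obtain ⟨a, β, hcop, hθ, hβ1, hβ2⟩ := th_approx hμ (k + 1)
  set n := nn μ (k + 1) with hn
  set n' := nn μ (k + 2) with hn'
  set n0 := nn μ k with hn0
  have f1 : 4 * n ≤ n' := nn_four hμ (k + 1)
  have f2 : 4 * n0 ≤ n := nn_four hμ k
  have f3 : 1 ≤ n0 := nn_pos hμ k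
  have g1 : (n' : ℝ) < μ * n + 1 := nn_hi hμ (k + 1)
  have g2 : μ * n0 ≤ n := nn_lo μ k
  have hβ0 : 0 < β := lt_of_lt_of_le (by positivity) hβ1
  have hN1 : (1:ℝ) ≤ N := by
    have : 0 < 3 ^ (n - n0 - 2) := by positivity
    exact_mod_cast (by omega : 1 ≤ N)
  have hN0 : (0:ℝ) < N := by linarith
  have hq : ((3 ^ n : ℕ) : ℝ) = (3:ℝ) ^ (n:ℝ) := by push_cast; rw [Real.rpow_natCast]
  have hcond : 2 * N * β ≤ 1 / (2 * ((3 ^ n : ℕ) : ℝ)) := by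
    have e : (3:ℝ) ^ n' = 3 ^ (n' - n - 2) * 3 ^ n * 9 := by
      rw [show (9:ℝ) = 3 ^ 2 by norm_num, ← pow_add, ← pow_add]; congr 1; omega
    have hup' : (N:ℝ) ≤ 3 ^ (n' - n - 2) := by exact_mod_cast hup
    calc 2 * N * β ≤ 2 * 3 ^ (n' - n - 2) * ((3 / 2) / 3 ^ n') := by gcongr
      _ = 1 / (3 * 3 ^ n) := by rw [e]; field_simp; norm_num
      _ ≤ 1 / (2 * ((3 ^ n : ℕ) : ℝ)) := by
          push_cast
          apply one_div_le_one_div_of_le (by positivity)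
          have : (0:ℝ) < 3 ^ n := by positivity
          linarith
  have hU := upper x (th μ) β a (3 ^ n) N (by positivity) hcop hθ hβ0 hcond
  set P := (N:ℝ) ^ (2 * α) with hP
  have hNP : (N:ℝ) ≤ P := by
    calc (N:ℝ) = N ^ (1:ℝ) := (Real.rpow_one _).symm
      _ ≤ P := Real.rpow_le_rpow_of_exponent_le hN1 (by linarith)
  have hPN : P ≤ (N:ℝ) ^ 2 := by
    rw [← Real.rpow_natCast]
    exact Real.rpow_le_rpow_of_exponent_le hN1 (by push_cast; linarith)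
  have hqP : ((3 ^ n : ℕ) : ℝ) ≤ 81 * P := by
    have a1 : (3:ℝ) ^ (α * n - 2) ≤ N := by
      have : ((3 ^ (n - n0 - 2) : ℕ) : ℝ) ≤ N := by exact_mod_cast hlo.le
      refine le_trans ?_ this
      push_cast
      rw [← Real.rpow_natCast]
      apply Real.rpow_le_rpow_of_exponent_le (by norm_num)
      rw [Nat.cast_sub (by omega), Nat.cast_sub (by omega)]
      have : (n0:ℝ) ≤ (1 - α) * n := by
        have : (1 - α) * (μ * n0) ≤ (1 - α) * n := by gcongr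
        have e : (1 - α) * (μ * n0) = (μ * (1 - α)) * n0 := by ring
        rw [e, hμα] at this; linarith
      push_cast; linarith
    have a2 : ((3:ℝ) ^ (α * n - 2)) ^ (2 * α) ≤ P :=
      Real.rpow_le_rpow (by positivity) a1 (by linarith)
    rw [← Real.rpow_mul (by norm_num)] at a2
    have a3 : (3:ℝ) ^ ((n:ℝ) - 4) ≤ 3 ^ ((α * n - 2) * (2 * α)) := by
      apply Real.rpow_le_rpow_of_exponent_le (by norm_num)
      have : (0:ℝ) ≤ n := by positivity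
      have : 1 ≤ 2 * α ^ 2 := by nlinarith
      nlinarith
    have a4 : (3:ℝ) ^ (n:ℝ) = 81 * 3 ^ ((n:ℝ) - 4) := by
      rw [Real.rpow_sub (by norm_num)]; norm_num; ring
    rw [hq, a4]; linarith
  have hmin : min ((N:ℝ) ^ 2 / ((3 ^ n : ℕ) : ℝ)) (1 / (((3 ^ n : ℕ) : ℝ) * β)) ≤ 3 * P := by
    refine (min_le_geom _ _ α (by positivity) (by positivity) (by linarith) h2.le).trans ?_
    have b1 : ((N:ℝ) ^ 2 / ((3 ^ n : ℕ) : ℝ)) ^ α = P * 3 ^ (-(α * n)) := by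
      rw [Real.div_rpow (by positivity) (by positivity), hq, ← Real.rpow_mul (by norm_num),
        ← Real.rpow_natCast, ← Real.rpow_mul hN0.le, Real.rpow_neg (by norm_num), mul_comm (n:ℝ) α]
      push_cast
      rw [div_eq_mul_inv]
    have b2 : 1 / (((3 ^ n : ℕ) : ℝ) * β) ≤ (3:ℝ) ^ ((n':ℝ) - n) := by
      rw [Real.rpow_sub (by norm_num), Real.rpow_natCast, Real.rpow_natCast]
      push_cast
      rw [div_le_div_iff₀ (by positivity) (by positivity)]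
      rw [div_le_iff₀ (by positivity)] at hβ1
      have : (0:ℝ) < 3 ^ n := by positivity
      nlinarith
    have b3 : (1 / (((3 ^ n : ℕ) : ℝ) * β)) ^ (1 - α) ≤ (3:ℝ) ^ (α * n + 1) := by
      refine (Real.rpow_le_rpow (by positivity) b2 (by linarith)).trans ?_
      rw [← Real.rpow_mul (by norm_num)]
      apply Real.rpow_le_rpow_of_exponent_le (by norm_num)
      have : ((n':ℝ) - n) * (1 - α) ≤ (μ * n + 1 - n) * (1 - α) := by
        gcongr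
      have e : (μ * n + 1 - n) * (1 - α) = (μ * (1 - α)) * n + (1 - α) - n * (1 - α) := by ring
      rw [e, hμα] at this
      nlinarith
    rw [b1]
    calc P * 3 ^ (-(α * n)) * (1 / (((3 ^ n : ℕ) : ℝ) * β)) ^ (1 - α)
        ≤ P * 3 ^ (-(α * n)) * (3:ℝ) ^ (α * n + 1) := by gcongr
      _ = 3 * P := by
          rw [mul_assoc, ← Real.rpow_add (by norm_num)]; simp; ring
  have hL : 0 ≤ Real.log N := Real.log_nonneg hN1
  have hlogq : 1 + Real.log ((3 ^ n : ℕ) : ℝ) ≤ 9 * (1 + Real.log N) := by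
    have c1 : Real.log ((3 ^ n : ℕ) : ℝ) ≤ Real.log (3 ^ 4 * (N:ℝ) ^ 2) := by
      apply Real.log_le_log (by positivity); linarith
    rw [Real.log_mul (by positivity) (by positivity), Real.log_pow, Real.log_pow] at c1
    have c2 := Real.log_le_sub_one_of_pos (show (0:ℝ) < 3 by norm_num)
    push_cast at c1 ⊢
    linarith
  have hP0 : 0 ≤ P := by positivity
  have d1 : 4 * (N + ((3 ^ n : ℕ) : ℝ)) * (1 + Real.log ((3 ^ n : ℕ) : ℝ))
      ≤ 4 * (82 * P) * (9 * (1 + Real.log N)) := by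
    have := Real.log_natCast_nonneg (3 ^ n)
    exact mul_le_mul (by linarith) hlogq (by linarith) (by positivity)
  have d2 : (1 + Real.log N) * min ((N:ℝ) ^ 2 / ((3 ^ n : ℕ) : ℝ)) (1 / (((3 ^ n : ℕ) : ℝ) * β))
      ≤ (1 + Real.log N) * (3 * P) := by gcongr
  nlinarith

lemma isBigO_of_gt {α : ℝ} (h1 : 3 / 4 ≤ α) (h2 : α < 1) (hμα : μ * (1 - α) = 1) (hμ : 4 ≤ μ)
    (x s : ℝ) (hs : α < s) :
    (fun N : ℕ => S2 x (th μ) N) =O[atTop] (fun N : ℕ => (N:ℝ) ^ s) := by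
  set ε := 2 * (s - α) with hε
  have hε0 : 0 < ε := by linarith
  apply IsBigO.of_bound (Real.sqrt (2959 * (1 + 1 / ε)))
  filter_upwards [eventually_gt_atTop (3 ^ (nn μ 1 - nn μ 0 - 2))] with N hN
  have hU := upper_main h1 h2 hμα hμ x N hN
  have hN1 : (1:ℝ) ≤ N := by
    have : 0 < 3 ^ (nn μ 1 - nn μ 0 - 2) := by positivity
    exact_mod_cast (by omega : 1 ≤ N)
  have hN0 : (0:ℝ) < N := by linarith
  have l1 := Real.log_le_rpow_div hN0.le hε0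
  have l2 : (1:ℝ) ≤ N ^ ε := Real.one_le_rpow hN1 hε0.le
  have l3 : 1 + Real.log N ≤ (1 + 1 / ε) * N ^ ε := by
    have : (N:ℝ) ^ ε / ε = 1 / ε * N ^ ε := by ring
    linarith
  have l4 : (N:ℝ) ^ ε * N ^ (2 * α) = (N ^ s) ^ 2 := by
    rw [← Real.rpow_add hN0, ← Real.rpow_natCast, ← Real.rpow_mul hN0.le]
    congr 1; push_cast; linarith
  rw [Real.norm_of_nonneg (by positivity)]
  apply le_of_sq_le_sq _ (by positivity)
  rw [mul_pow, Real.sq_sqrt (by positivity), ← l4]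
  calc ‖S2 x (th μ) N‖ ^ 2 ≤ 2959 * (1 + Real.log N) * (N:ℝ) ^ (2 * α) := hU
    _ ≤ 2959 * ((1 + 1 / ε) * N ^ ε) * (N:ℝ) ^ (2 * α) := by gcongr
    _ = _ := by ring

/-- positions where the digits of the linear coefficient are free -/
def free (μ : ℝ) (i : ℕ) : Prop := ∃ k, nn μ k < 2 * i ∧ i ≤ nn μ k

lemma free_inf (hμ : 4 ≤ μ) : {i | free μ i}.Infinite := by
  apply Set.infinite_of_injective_forall_mem (nn_mono hμ).injective
  intro k
  exact ⟨k, by have := nn_pos hμ k; omega, le_rfl⟩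

/-- enumeration of the free positions -/
noncomputable def FF (μ : ℝ) : ℕ → ℕ := Nat.nth (free μ)

lemma FF_mono (hμ : 4 ≤ μ) : StrictMono (FF μ) := Nat.nth_strictMono (free_inf hμ)

lemma FF_free (hμ : 4 ≤ μ) (j : ℕ) : free μ (FF μ j) := Nat.nth_mem_of_infinite (free_inf hμ) j

lemma FF_le (hμ : 4 ≤ μ) (j : ℕ) : FF μ j ≤ (2 * (⌈μ⌉₊ + 1)) * (j + 1) := by
  classical
  have hex : ∃ k, 2 * (j + 1) ≤ nn μ k := ⟨2 * (j + 1), nn_ge hμ _⟩
  have hk0 : Nat.find hex ≠ 0 := by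
    intro h0
    have := Nat.find_spec hex
    rw [h0] at this
    simp only [nn] at this
    omega
  obtain ⟨k, hk⟩ := Nat.exists_eq_succ_of_ne_zero hk0
  have hup : 2 * (j + 1) ≤ nn μ (k + 1) := by
    have := Nat.find_spec hex; rw [hk] at this; exact this
  have hlo : nn μ k < 2 * (j + 1) := by
    have := Nat.find_min hex (show k < Nat.find hex by omega); omega
  have hc : j < Nat.count (free μ) (nn μ (k + 1) + 1) := by
    rw [Nat.count_eq_card_filter_range]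
    refine lt_of_lt_of_le ?_ (card_le_card (s := Ioc (nn μ (k + 1) / 2) (nn μ (k + 1))) ?_)
    · rw [Nat.card_Ioc]; omega
    · intro i hi
      have := mem_Ioc.1 hi
      rw [mem_filter, mem_range]
      exact ⟨by omega, k + 1, by omega, this.2⟩
  have h1 : FF μ j < nn μ (k + 1) + 1 := Nat.nth_lt_of_lt_count hc
  have h2 := nn_le_mul hμ k
  have h3 : (⌈μ⌉₊ + 1) * nn μ k ≤ (⌈μ⌉₊ + 1) * (2 * (j + 1)) := Nat.mul_le_mul_left _ hlo.le
  have h4 : (⌈μ⌉₊ + 1) * (2 * (j + 1)) = (2 * (⌈μ⌉₊ + 1)) * (j + 1) := by ring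
  omega

lemma val_FF_mem (hμ : 4 ≤ μ) (ε : ℕ → Fin 2) : val (FF μ) ε ∈ Set.Ico (0:ℝ) 1 := by
  refine ⟨val_nonneg _ _, (val_le (FF_mono hμ) _).trans_lt ?_⟩
  obtain ⟨k, h1, -⟩ := FF_free hμ 0
  have : (3:ℝ) ^ 1 ≤ 3 ^ FF μ 0 := pow_le_pow_right₀ (by norm_num) (by omega)
  rw [div_lt_one (by positivity)]; linarith

lemma lower_main {α : ℝ} (h1 : 3 / 4 ≤ α) (h2 : α < 1) (hμα : μ * (1 - α) = 1) (hμ : 4 ≤ μ)
    (ε : ℕ → Fin 2) (k : ℕ) : ∃ N : ℕ, k ≤ N ∧ 1 ≤ N ∧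
      (N:ℝ) ^ α / 6 - 9 * (N:ℝ) ^ (1 / 2 : ℝ) ≤ ‖S2 (val (FF μ) ε) (th μ) N‖ := by
  classical
  obtain ⟨a, β, hcop, hθ, hβ1, hβ2⟩ := th_approx hμ (k + 1)
  set n := nn μ (k + 1) with hn
  set n' := nn μ (k + 2) with hn'
  have f1 : 4 * n ≤ n' := nn_four hμ (k + 1)
  have f2 : 4 * nn μ k ≤ n := nn_four hμ k
  have f3 : 1 ≤ nn μ k := nn_pos hμ k
  have f4 : k + 1 ≤ n := nn_ge hμ (k + 1)
  have g1 : (n' : ℝ) < μ * n + 1 := nn_hi hμ (k + 1)
  set p := n' / 2 - 2 with hp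
  have hpn : n ≤ p := by omega
  set J := Nat.count (free μ) (n + 1) with hJ
  have hJ1 : ∀ j < J, FF μ j ≤ n := fun j hj => Nat.lt_succ_iff.1 (Nat.nth_lt_of_lt_count hj)
  have hJ2 : p + 3 ≤ FF μ J := by
    have a1 : n + 1 ≤ FF μ J := Nat.le_nth_count (free_inf hμ) _
    obtain ⟨k', b1, b2⟩ := FF_free hμ J
    have : k + 1 < k' := (nn_mono hμ).lt_iff_lt.1 (by omega)
    have : n' ≤ nn μ k' := (nn_mono hμ).monotone (by omega)
    omega
  have hx := val_split (FF_mono hμ) ε J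
  rw [head_eq (FF μ) ε J n hJ1] at hx
  set γ := val (fun j => FF μ (j + J)) (fun j => ε (j + J)) with hγ
  have hγ0 : 0 ≤ γ := val_nonneg _ _
  have hγ1 : γ ≤ (3 / 2) / 3 ^ (p + 3) := by
    refine (val_le (shift_mono (FF_mono hμ) J) _).trans ?_
    simp only [zero_add]
    gcongr; norm_num
  have hβ0 : 0 ≤ β := le_trans (by positivity) hβ1
  have hβ3 : β ≤ (3 / 2) / 3 ^ (2 * p + 4) := by
    refine hβ2.trans ?_
    gcongr
    · norm_num
    · omega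
  have hqM : 3 ^ n * 3 ^ (p - n) = 3 ^ p := by rw [← pow_add]; congr 1; omega
  have hqM' : ((3 ^ n : ℕ) : ℝ) * ((3 ^ (p - n) : ℕ) : ℝ) = 3 ^ p := by exact_mod_cast hqM
  have hL := lower a (∑ j ∈ range J, (ε j : ℕ) * 3 ^ (n - FF μ j)) (3 ^ n) (3 ^ (p - n)) γ β
    (by positivity) hcop hγ0 hβ0
    (by
      rw [hqM']
      calc γ * 3 ^ p ≤ (3 / 2) / 3 ^ (p + 3) * 3 ^ p := by gcongr
        _ = 1 / 18 := by rw [pow_add]; field_simp; norm_num)
    (by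
      rw [hqM']
      calc β * (3 ^ p) ^ 2 ≤ (3 / 2) / 3 ^ (2 * p + 4) * (3 ^ p) ^ 2 := by gcongr
        _ = 1 / 54 := by rw [pow_add, mul_comm 2 p, pow_mul]; field_simp; norm_num)
  rw [← hx, ← hθ, hqM] at hL
  refine ⟨3 ^ p, ?_, Nat.one_le_pow _ _ (by norm_num), le_trans ?_ hL⟩
  · have h3 : p < 3 ^ p := Nat.lt_pow_self (by norm_num)
    omega
  have e1 : Real.sqrt ((3 ^ n : ℕ) : ℝ) * ((3 ^ (p - n) : ℕ) : ℝ) = (3:ℝ) ^ ((p:ℝ) - n / 2) := by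
    push_cast
    rw [Real.sqrt_eq_rpow, ← Real.rpow_natCast, ← Real.rpow_natCast, ← Real.rpow_mul (by norm_num),
      ← Real.rpow_add (by norm_num), Nat.cast_sub hpn]
    congr 1; ring
  have e2 : (((3 ^ p : ℕ) : ℝ)) ^ α / 3 ≤ (3:ℝ) ^ ((p:ℝ) - n / 2) := by
    push_cast
    rw [← Real.rpow_natCast, ← Real.rpow_mul (by norm_num), ← Real.rpow_sub_one (by norm_num)]
    apply Real.rpow_le_rpow_of_exponent_le (by norm_num)
    have c1 : (n':ℝ) ≤ 2 * p + 5 := by exact_mod_cast (by omega : n' ≤ 2 * p + 5)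
    have c0 : μ * n ≤ n' := nn_lo μ (k + 1)
    have c2 : (1 - α) * (μ * n) ≤ (1 - α) * (2 * p + 5) :=
      mul_le_mul_of_nonneg_left (by linarith) (by linarith)
    have e : (1 - α) * (μ * n) = (μ * (1 - α)) * n := by ring
    rw [e, hμα] at c2
    linarith
  have e3 : ((3 ^ n : ℕ) : ℝ) ≤ 9 * (((3 ^ p : ℕ) : ℝ)) ^ (1 / 2 : ℝ) := by
    push_cast
    rw [← Real.rpow_natCast, ← Real.rpow_natCast, ← Real.rpow_mul (by norm_num),
      show (9:ℝ) = 3 ^ (2:ℝ) by norm_num, ← Real.rpow_add (by norm_num)]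
    apply Real.rpow_le_rpow_of_exponent_le (by norm_num)
    have c1 : 4 * (n:ℝ) ≤ 2 * p + 5 := by exact_mod_cast (by omega : 4 * n ≤ 2 * p + 5)
    linarith
  rw [e1]
  linarith

lemma ge_of_isBigO {α : ℝ} (h1 : 3 / 4 ≤ α) (h2 : α < 1) (hμα : μ * (1 - α) = 1) (hμ : 4 ≤ μ)
    (ε : ℕ → Fin 2) (s : ℝ)
    (hO : (fun N : ℕ => S2 (val (FF μ) ε) (th μ) N) =O[atTop] (fun N : ℕ => (N:ℝ) ^ s)) :
    α ≤ s := by
  by_contra hs
  push Not at hs
  obtain ⟨C, hC0, hC⟩ := hO.exists_pos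
  rw [isBigOWith_iff] at hC
  set t := max s (1 / 2) with ht
  have htα : t < α := max_lt hs (by linarith)
  have hT : Tendsto (fun N : ℕ => (N:ℝ) ^ (α - t)) atTop atTop :=
    (tendsto_rpow_atTop (by linarith)).comp tendsto_natCast_atTop_atTop
  obtain ⟨k, hk⟩ := eventually_atTop.1 (hC.and (hT.eventually_gt_atTop (6 * C + 54)))
  obtain ⟨N, hN, hN1, hL⟩ := lower_main h1 h2 hμα hμ ε k
  obtain ⟨b1, b2⟩ := hk N hN
  have hN1' : (1:ℝ) ≤ N := by exact_mod_cast hN1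
  have hN0 : (0:ℝ) < N := by linarith
  rw [Real.norm_of_nonneg (by positivity)] at b1
  have c1 : (N:ℝ) ^ s ≤ N ^ t := Real.rpow_le_rpow_of_exponent_le hN1' (le_max_left _ _)
  have c2 : (N:ℝ) ^ (1 / 2 : ℝ) ≤ N ^ t := Real.rpow_le_rpow_of_exponent_le hN1' (le_max_right _ _)
  have c3 : (N:ℝ) ^ α = N ^ (α - t) * N ^ t := by rw [← Real.rpow_add hN0]; simp
  have c4 : (0:ℝ) < N ^ t := by positivity
  have c5 : (6 * C + 54) * (N:ℝ) ^ t < N ^ (α - t) * N ^ t := by gcongr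
  have c6 : C * (N:ℝ) ^ s ≤ C * N ^ t := by gcongr
  linarith

end

lemma exponent_eq {α : ℝ} (h1 : 3 / 4 ≤ α) (h2 : α < 1) :
    ∃ θ ∈ Set.Ico (0:ℝ) 1, ∃ E : Set ℝ, E ⊆ Set.Ico 0 1 ∧ 0 < dimH E ∧ ∀ x ∈ E,
      sInf {s : ℝ | 0 < s ∧ (fun N : ℕ => S2 x θ N) =O[atTop] (fun N : ℕ => (N:ℝ) ^ s)} = α := by
  have h3 : 0 < 1 - α := by linarith
  have hμα : (1 / (1 - α)) * (1 - α) = 1 := by field_simp
  have hμ : 4 ≤ 1 / (1 - α) := by rw [le_div_iff₀ h3]; linarith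
  set μ := 1 / (1 - α)
  refine ⟨th μ, th_mem hμ, Set.range (val (FF μ)), ?_,
    dimH_val_pos (FF_mono hμ) _ (by omega) (FF_le hμ), ?_⟩
  · rintro _ ⟨ε, rfl⟩; exact val_FF_mem hμ ε
  · rintro _ ⟨ε, rfl⟩
    apply csInf_eq_of_forall_ge_of_forall_gt_exists_lt
    · exact ⟨α + 1, by linarith, isBigO_of_gt h1 h2 hμα hμ _ _ (by linarith)⟩
    · rintro s ⟨-, hs⟩; exact ge_of_isBigO h1 h2 hμα hμ ε s hs
    · intro w hw
      exact ⟨(α + w) / 2, ⟨by linarith, isBigO_of_gt h1 h2 hμα hμ _ _ (by linarith)⟩, by linarith⟩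

end Pool.Agent.H978Z.Weyl
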