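import Pool.Agent.H978Z.Weyl.Basic

namespace Pool.Agent.H978Z.Weyl

open Finset

lemma harm_le (n : ℕ) : ∑ r ∈ range n, 1 / ((r:ℝ) + 1) ≤ 1 + Real.log n := by
  have h := harmonic_le_one_add_log n
  have : ((harmonic n : ℚ) : ℝ) = ∑ r ∈ range n, 1 / ((r:ℝ) + 1) := by
    unfold harmonic; push_cast; simp
  rw [← this]; exact h

lemma D_lower (t : ℤ) (r q : ℕ) (η : ℝ) (hr : 1 ≤ r) (hrq : r < q) (hη : 0 ≤ η)
    (hη2 : η ≤ 1 / (2 * q)) :
    0 < D (t + r / q + η) ∧ 1 / (2 * D (t + r / q + η)) ≤ q / r + q / ((q:ℝ) - r) := by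
  have hq : (0:ℝ) < q := by exact_mod_cast (by omega : 0 < q)
  have hr' : (1:ℝ) ≤ r := by exact_mod_cast hr
  have hrq' : (r:ℝ) + 1 ≤ q := by exact_mod_cast hrq
  set y := (t:ℝ) + r / q + η with hy
  have key : (r:ℝ) / (2 * q) ≤ D y ∨ ((q:ℝ) - r) / (2 * q) ≤ D y := by
    unfold D
    rcases le_or_gt (round y) t with h | h
    · left
      have h' : ((round y : ℤ) : ℝ) ≤ t := by exact_mod_cast h
      have : (r:ℝ) / (2 * q) ≤ r / q := by
        apply div_le_div_of_nonneg_left (by linarith) hq (by linarith)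
      refine le_trans ?_ (le_abs_self _)
      linarith
    · right
      have h' : (t:ℝ) + 1 ≤ ((round y : ℤ) : ℝ) := by exact_mod_cast h
      refine le_trans ?_ (neg_le_abs _)
      have e1 : ((q:ℝ) - r) / (2 * q) = 1 - r / q - ((q:ℝ) - r) / (2 * q) := by
        field_simp; ring
      have e2 : 1 / (2 * (q:ℝ)) ≤ ((q:ℝ) - r) / (2 * q) := by
        apply div_le_div_of_nonneg_right (by linarith) (by linarith)
      linarith
  have p1 : (0:ℝ) < r / (2 * q) := by positivity
  have p2 : (0:ℝ) < ((q:ℝ) - r) / (2 * q) := div_pos (by linarith) (by linarith)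
  have q1 : (0:ℝ) ≤ q / r := by positivity
  have q2 : (0:ℝ) ≤ q / ((q:ℝ) - r) := div_nonneg hq.le (by linarith)
  rcases key with k | k
  · refine ⟨by linarith, ?_⟩
    have : 1 / (2 * D y) ≤ 1 / (2 * ((r:ℝ) / (2 * q))) :=
      one_div_le_one_div_of_le (by linarith) (by linarith)
    have e : 1 / (2 * ((r:ℝ) / (2 * q))) = q / r := by field_simp
    linarith
  · refine ⟨by linarith, ?_⟩
    have : 1 / (2 * D y) ≤ 1 / (2 * (((q:ℝ) - r) / (2 * q))) :=
      one_div_le_one_div_of_le (by linarith) (by linarith)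
    have hqr : (q:ℝ) - r ≠ 0 := by linarith
    have e : 1 / (2 * (((q:ℝ) - r) / (2 * q))) = q / ((q:ℝ) - r) := by field_simp
    linarith

lemma sum_w (q : ℕ) : ∑ r ∈ Ico 1 q, ((q:ℝ) / r + q / ((q:ℝ) - r)) ≤ 2 * q * (1 + Real.log q) := by
  rcases Nat.eq_zero_or_pos q with rfl | hq
  · simp
  have h1 : ∑ r ∈ Ico 1 q, (q:ℝ) / r ≤ q * (1 + Real.log q) := by
    rw [sum_Ico_eq_sum_range]
    calc ∑ k ∈ range (q - 1), (q:ℝ) / ((1 + k : ℕ):ℝ) = q * ∑ k ∈ range (q - 1), 1 / ((k:ℝ) + 1) := by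
          rw [mul_sum]; apply sum_congr rfl; intro k _; push_cast; rw [add_comm]; ring
      _ ≤ q * ∑ k ∈ range q, 1 / ((k:ℝ) + 1) := by
          gcongr
          omega
      _ ≤ _ := by gcongr; exact harm_le q
  have h2 : ∑ r ∈ Ico 1 q, (q:ℝ) / ((q:ℝ) - r) = ∑ r ∈ Ico 1 q, (q:ℝ) / r := by
    rw [sum_Ico_eq_sum_range, sum_Ico_eq_sum_range,
      ← Finset.sum_range_reflect (fun k => (q:ℝ) / ((1 + k : ℕ):ℝ)) (q - 1)]
    apply sum_congr rfl
    intro k hk
    have hk' := mem_range.1 hk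
    congr 1
    have : 1 + (q - 1 - 1 - k) = q - (1 + k) := by omega
    rw [this, Nat.cast_sub (by omega)]
  rw [sum_add_distrib, h2]; linarith

lemma fiber_card (a q N r : ℕ) (hq : 0 < q) (hcop : Nat.Coprime (2 * a) q) (s : Finset ℕ)
    (hs : s ⊆ range N) :
    ((s.filter (fun h => (2 * a * (h + 1)) % q = r)).card : ℝ) ≤ N / q + 1 := by
  have : (s.filter (fun h => (2 * a * (h + 1)) % q = r)).card ≤ (range (N / q + 1)).card := by
    apply Finset.card_le_card_of_injOn (fun h => h / q)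
    · intro h hh
      have := mem_range.1 (hs (mem_filter.1 hh).1)
      simp only [coe_range, Set.mem_Iio]
      have : h / q ≤ N / q := Nat.div_le_div_right this.le
      omega
    · intro h1 hh1 h2 hh2 he
      have e1 := (mem_filter.1 hh1).2
      have e2 := (mem_filter.1 hh2).2
      have m : 2 * a * (h1 + 1) ≡ 2 * a * (h2 + 1) [MOD q] := by
        unfold Nat.ModEq; rw [e1, e2]
      have m2 := Nat.ModEq.cancel_left_of_coprime (by rw [Nat.gcd_comm]; exact hcop) m
      have m3 : h1 ≡ h2 [MOD q] := Nat.ModEq.add_right_cancel' 1 m2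
      have d1 := Nat.div_add_mod h1 q
      have d2 := Nat.div_add_mod h2 q
      simp only at he
      unfold Nat.ModEq at m3
      rw [← d1, ← d2, he, m3]
  rw [card_range] at this
  have h2 : ((N / q + 1 : ℕ) : ℝ) ≤ N / q + 1 := by
    push_cast; gcongr; exact Nat.cast_div_le
  exact le_trans (by exact_mod_cast this) h2

lemma partA (θ β : ℝ) (a q N : ℕ) (hq : 0 < q) (hcop : Nat.Coprime (2 * a) q)
    (hθ : θ = a / q + β) (hβ : 0 < β) (hN : 2 * N * β ≤ 1 / (2 * q)) :
    ∑ h ∈ (range N).filter (fun h => ¬ q ∣ h + 1),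
      ‖∑ n ∈ range (N - h - 1), e (n * (2 * ((h:ℝ) + 1) * θ))‖ ≤ 2 * (N + q) * (1 + Real.log q) := by
  have hq' : (0:ℝ) < q := by exact_mod_cast hq
  set s := (range N).filter (fun h => ¬ q ∣ h + 1) with hs
  set w : ℕ → ℝ := fun r => (q:ℝ) / r + q / ((q:ℝ) - r) with hw
  have hmaps : ∀ h ∈ s, (2 * a * (h + 1)) % q ∈ Ico 1 q := by
    intro h hh
    have h2 := (mem_filter.1 hh).2
    rw [mem_Ico]
    refine ⟨?_, Nat.mod_lt _ hq⟩
    rw [Nat.one_le_iff_ne_zero]
    intro h0
    exact h2 ((Nat.Coprime.symm hcop).dvd_of_dvd_mul_left (Nat.dvd_of_mod_eq_zero h0))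
  have hterm : ∀ h ∈ s, ‖∑ n ∈ range (N - h - 1), e (n * (2 * ((h:ℝ) + 1) * θ))‖
      ≤ w ((2 * a * (h + 1)) % q) := by
    intro h hh
    have hm := mem_Ico.1 (hmaps h hh)
    have hhN := mem_range.1 (mem_filter.1 hh).1
    have hhN' : (h:ℝ) + 1 ≤ N := by exact_mod_cast hhN
    have hdec : 2 * ((h:ℝ) + 1) * θ = (((2 * a * (h + 1)) / q : ℕ) : ℤ) +
        (((2 * a * (h + 1)) % q : ℕ) : ℝ) / q + 2 * ((h:ℝ) + 1) * β := by
      have d := Nat.div_add_mod (2 * a * (h + 1)) q
      have d' : (q:ℝ) * (((2 * a * (h + 1)) / q : ℕ) : ℝ) + (((2 * a * (h + 1)) % q : ℕ) : ℝ)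
          = 2 * a * ((h:ℝ) + 1) := by exact_mod_cast d
      rw [hθ, Int.cast_natCast]
      field_simp
      linarith
    have := D_lower (((2 * a * (h + 1)) / q : ℕ) : ℤ) ((2 * a * (h + 1)) % q) q
      (2 * ((h:ℝ) + 1) * β) hm.1 hm.2 (by positivity) (by nlinarith)
    rw [← hdec] at this
    exact (geom_bound _ _ this.1).trans this.2
  calc ∑ h ∈ s, ‖∑ n ∈ range (N - h - 1), e (n * (2 * ((h:ℝ) + 1) * θ))‖
      ≤ ∑ h ∈ s, w ((2 * a * (h + 1)) % q) := sum_le_sum hterm
    _ = ∑ r ∈ Ico 1 q, ∑ h ∈ s.filter (fun h => (2 * a * (h + 1)) % q = r),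
          w ((2 * a * (h + 1)) % q) := (sum_fiberwise_of_maps_to hmaps _).symm
    _ ≤ ∑ r ∈ Ico 1 q, ((N:ℝ) / q + 1) * w r := by
        apply sum_le_sum
        intro r hr
        have hr' := mem_Ico.1 hr
        have hw0 : 0 ≤ w r := by
          have : (r:ℝ) < q := by exact_mod_cast hr'.2
          simp only [hw]
          have : (0:ℝ) ≤ q / ((q:ℝ) - r) := div_nonneg hq'.le (by linarith)
          positivity
        rw [sum_congr rfl (g := fun _ => w r) (by
          intro h hh; rw [(mem_filter.1 hh).2]), sum_const, nsmul_eq_mul]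
        gcongr
        exact fiber_card a q N r hq hcop s (filter_subset _ _)
    _ = ((N:ℝ) / q + 1) * ∑ r ∈ Ico 1 q, w r := by rw [mul_sum]
    _ ≤ ((N:ℝ) / q + 1) * (2 * q * (1 + Real.log q)) := by
        gcongr; exact sum_w q
    _ = _ := by field_simp

lemma partB (θ β : ℝ) (a q N : ℕ) (hq : 0 < q)
    (hθ : θ = a / q + β) (hβ : 0 < β) (hN : 2 * N * β ≤ 1 / (2 * q)) :
    ∑ h ∈ (range N).filter (fun h => q ∣ h + 1),
      ‖∑ n ∈ range (N - h - 1), e (n * (2 * ((h:ℝ) + 1) * θ))‖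
        ≤ (1 + Real.log N) * min ((N:ℝ) ^ 2 / q) (1 / (q * β)) := by
  have hq' : (0:ℝ) < q := by exact_mod_cast hq
  have hq1 : (1:ℝ) ≤ q := by exact_mod_cast hq
  set T : ℕ → ℝ := fun h => ‖∑ n ∈ range (N - h - 1), e (n * (2 * ((h:ℝ) + 1) * θ))‖ with hT
  have hsub : (range N).filter (fun h => q ∣ h + 1) ⊆
      (range (N / q)).image (fun m => q * (m + 1) - 1) := by
    intro h hh
    obtain ⟨h1, ⟨m, hm⟩⟩ := mem_filter.1 hh
    have h1' := mem_range.1 h1
    have hm0 : m ≠ 0 := by rintro rfl; simp at hm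
    rw [mem_image]
    refine ⟨m - 1, ?_, ?_⟩
    · rw [mem_range]
      have : m ≤ N / q := by
        rw [Nat.le_div_iff_mul_le hq]; rw [mul_comm]; omega
      omega
    · have : m - 1 + 1 = m := by omega
      rw [this]; omega
  have hinj : Set.InjOn (fun m => q * (m + 1) - 1) (range (N / q) : Finset ℕ) := by
    intro m1 _ m2 _ he
    simp only at he
    have p1 : 0 < q * (m1 + 1) := by positivity
    have p2 : 0 < q * (m2 + 1) := by positivity
    have : q * (m1 + 1) = q * (m2 + 1) := by omega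
    have := Nat.eq_of_mul_eq_mul_left hq this
    omega
  have hlog : 0 ≤ Real.log N := Real.log_natCast_nonneg N
  have step : ∑ h ∈ (range N).filter (fun h => q ∣ h + 1), T h
      ≤ ∑ m ∈ range (N / q), T (q * (m + 1) - 1) := by
    rw [← sum_image hinj]
    exact sum_le_sum_of_subset_of_nonneg hsub (fun _ _ _ => norm_nonneg _)
  refine step.trans ?_
  have b1 : ∑ m ∈ range (N / q), T (q * (m + 1) - 1) ≤ (N:ℝ) ^ 2 / q := by
    calc ∑ m ∈ range (N / q), T (q * (m + 1) - 1) ≤ ∑ m ∈ range (N / q), (N:ℝ) := by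
          apply sum_le_sum; intro m _
          refine (geom_triv _ _).trans ?_
          exact_mod_cast (by omega)
      _ = ((N / q : ℕ) : ℝ) * N := by simp
      _ ≤ ((N:ℝ) / q) * N := by gcongr; exact Nat.cast_div_le
      _ = _ := by ring
  have b2 : ∑ m ∈ range (N / q), T (q * (m + 1) - 1) ≤ (1 + Real.log N) * (1 / (q * β)) := by
    calc ∑ m ∈ range (N / q), T (q * (m + 1) - 1)
        ≤ ∑ m ∈ range (N / q), (1 / ((m:ℝ) + 1)) * (1 / (q * β)) := by
          apply sum_le_sum; intro m hm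
          have hm' := mem_range.1 hm
          have hmN : q * (m + 1) ≤ N := by
            have : m + 1 ≤ N / q := hm'
            rw [Nat.le_div_iff_mul_le hq] at this; rw [mul_comm]; exact this
          have hmN' : (q:ℝ) * ((m:ℝ) + 1) ≤ N := by exact_mod_cast hmN
          have p1 : 0 < q * (m + 1) := by positivity
          have hc : (((q * (m + 1) - 1 : ℕ):ℝ) + 1) = q * ((m:ℝ) + 1) := by
            rw [Nat.cast_sub p1]; push_cast; ring
          have hη : 2 * (q * ((m:ℝ) + 1)) * β ≤ 1 / 2 := by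
            have : 1 / (2 * (q:ℝ)) ≤ 1 / 2 := one_div_le_one_div_of_le (by norm_num) (by linarith)
            nlinarith
          have hD : D (2 * (q * ((m:ℝ) + 1)) * θ) = 2 * (q * ((m:ℝ) + 1)) * β := by
            have e1 : 2 * (q * ((m:ℝ) + 1)) * θ
                = 2 * (q * ((m:ℝ) + 1)) * β + ((2 * a * (m + 1) : ℕ) : ℤ) := by
              rw [hθ]; push_cast; field_simp; ring
            have p : 0 < 2 * (q * ((m:ℝ) + 1)) * β := by positivity
            rw [e1]; unfold D
            rw [round_add_intCast]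
            push_cast
            rcases lt_or_eq_of_le hη with hlt | heq
            · have : round (2 * (q * ((m:ℝ) + 1)) * β) = 0 := by
                rw [round_eq_zero_iff]; constructor <;> linarith
              rw [this]; simp [abs_of_pos p]
            · rw [heq]; simp; norm_num
          simp only [hT]
          rw [hc]
          have hDpos : 0 < D (2 * (q * ((m:ℝ) + 1)) * θ) := by rw [hD]; positivity
          refine (geom_bound _ _ hDpos).trans ?_
          rw [hD, one_div_mul_one_div]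
          apply one_div_le_one_div_of_le (by positivity)
          have : 0 < ((m:ℝ) + 1) * (q * β) := by positivity
          nlinarith
      _ = (∑ m ∈ range (N / q), 1 / ((m:ℝ) + 1)) * (1 / (q * β)) := by rw [sum_mul]
      _ ≤ (∑ m ∈ range N, 1 / ((m:ℝ) + 1)) * (1 / (q * β)) := by
          gcongr
          exact Nat.div_le_self _ _
      _ ≤ _ := by gcongr; exact harm_le N
  rcases le_total ((N:ℝ) ^ 2 / q) (1 / (q * β)) with h | h
  · rw [min_eq_left h]
    have : 0 ≤ (N:ℝ) ^ 2 / q := by positivity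
    nlinarith
  · rw [min_eq_right h]; exact b2

lemma upper (x θ β : ℝ) (a q N : ℕ) (hq : 0 < q) (hcop : Nat.Coprime (2 * a) q)
    (hθ : θ = a / q + β) (hβ : 0 < β) (hN : 2 * N * β ≤ 1 / (2 * q)) :
    ‖S2 x θ N‖ ^ 2 ≤ N + 4 * (N + q) * (1 + Real.log q)
      + 2 * ((1 + Real.log N) * min ((N:ℝ) ^ 2 / q) (1 / (q * β))) := by
  refine (weyl_diff x θ N).trans ?_
  rw [← sum_filter_add_sum_filter_not (range N) (fun h => q ∣ h + 1)]
  have hA := partA θ β a q N hq hcop hθ hβ hN
  have hB := partB θ β a q N hq hθ hβ hN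
  linarith

end Pool.Agent.H978Z.Weyl
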